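import Pool.Agent.Helper97.Fuchs.Base
import Pool.Agent.Helper97.Fuchs.Defs3

/-!
# Hitting measures: existence and stationarity (module FU-S1)
-/

namespace Pool.Agent.Helper97.Fuchs

open MeasureTheory Matrix UpperHalfPlane Filter Topology
open scoped MatrixGroups ENNReal BigOperators

noncomputable section

namespace Hit

lemma actH_mk' (g : SL(2, ℝ)) (z : ℍ) : actH (QuotientGroup.mk g) z = g • z := by
  unfold actH
  obtain ⟨c, hcg⟩ := QuotientGroup.mk_out_eq_mul (Subgroup.center SL(2, ℝ)) g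
  have hcg' : (Quotient.out (QuotientGroup.mk g : PSL(2, ℝ)) : SL(2, ℝ)) = g * c := hcg
  rw [hcg', mul_smul]
  congr 1
  obtain ⟨r, hr, hrc⟩ := Matrix.SpecialLinearGroup.mem_center_iff.1 c.2
  have hr0 : r ≠ 0 := by
    rintro rfl
    simp at hr
  have e : ∀ i j, (c : SL(2, ℝ)) i j = (Matrix.scalar (Fin 2) r) i j := by
    intro i j
    rw [hrc]
  apply UpperHalfPlane.ext
  rw [coe_specialLinearGroup_apply, e, e, e, e]
  have h01 : (Matrix.scalar (Fin 2) r) 0 1 = 0 := by simp [Matrix.scalar]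
  have h10 : (Matrix.scalar (Fin 2) r) 1 0 = 0 := by simp [Matrix.scalar]
  have h00 : (Matrix.scalar (Fin 2) r) 0 0 = r := by simp [Matrix.scalar]
  have h11 : (Matrix.scalar (Fin 2) r) 1 1 = r := by simp [Matrix.scalar]
  rw [h01, h10, h00, h11]
  have : (r : ℂ) ≠ 0 := by exact_mod_cast hr0
  simp
  field_simp

/-! ### the law of the steps -/

/-- prepend a step -/
def cons (g : PSL(2, ℝ)) (y : ℕ → PSL(2, ℝ)) : ℕ → PSL(2, ℝ) := fun n => Nat.casesOn n g y

@[simp] lemma cons_zero (g : PSL(2, ℝ)) (y : ℕ → PSL(2, ℝ)) : cons g y 0 = g := rfl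
@[simp] lemma cons_succ (g : PSL(2, ℝ)) (y : ℕ → PSL(2, ℝ)) (n : ℕ) : cons g y (n + 1) = y n := rfl

lemma measurable_cons (g : PSL(2, ℝ)) : Measurable (cons g) := by
  rw [measurable_pi_iff]
  intro n
  cases n with
  | zero => exact measurable_const
  | succ n => exact measurable_pi_apply n

lemma meas_set (E : Set PSL(2, ℝ)) : MeasurableSet E := MeasurableSpace.measurableSet_top

variable {ι : Type} [Fintype ι]

lemma toMeasure_eq {w : ι → ℝ} {A : ι → SL(2, ℝ)} (hw : IsWt w) {μ : PMF PSL(2, ℝ)}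
    (hμ : ∀ i, μ (QuotientGroup.mk (A i)) = ENNReal.ofReal (w i))
    (hinj : Function.Injective fun i => (QuotientGroup.mk (A i) : PSL(2, ℝ))) :
    μ.toMeasure = ∑ i, ENNReal.ofReal (w i) • Measure.dirac (QuotientGroup.mk (A i)) := by
  classical
  set m' : Measure PSL(2, ℝ) :=
    ∑ i, ENNReal.ofReal (w i) • Measure.dirac (QuotientGroup.mk (A i)) with hm'
  have happ : ∀ E : Set PSL(2, ℝ), m' E =
      ∑ i, ENNReal.ofReal (w i) * E.indicator 1 (QuotientGroup.mk (A i)) := by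
    intro E
    rw [hm', Measure.finsetSum_apply]
    refine Finset.sum_congr rfl fun i _ => ?_
    rw [Measure.smul_apply, Measure.dirac_apply' _ (meas_set E), smul_eq_mul]
  have hprob : IsProbabilityMeasure m' := by
    constructor
    rw [happ]
    simp only [Set.indicator_univ, Pi.one_apply, mul_one]
    rw [← ENNReal.ofReal_sum_of_nonneg (fun i _ => hw.nonneg i), hw.sum, ENNReal.ofReal_one]
  have hle : ∀ E : Set PSL(2, ℝ), m' E ≤ μ.toMeasure E := by
    intro E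
    set s : Finset PSL(2, ℝ) := (Finset.univ.filter
      (fun i => (QuotientGroup.mk (A i) : PSL(2, ℝ)) ∈ E)).image
        (fun i => (QuotientGroup.mk (A i) : PSL(2, ℝ))) with hs
    have h1 : μ.toMeasure s = m' E := by
      rw [PMF.toMeasure_apply_finset, hs, Finset.sum_image (fun i _ j _ h => hinj h), happ,
        Finset.sum_filter]
      refine Finset.sum_congr rfl fun i _ => ?_
      by_cases hi : (QuotientGroup.mk (A i) : PSL(2, ℝ)) ∈ E
      · rw [if_pos hi, Set.indicator_of_mem hi, hμ]; simp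
      · rw [if_neg hi, Set.indicator_of_notMem hi]; simp
    rw [← h1]
    refine measure_mono ?_
    intro g hg
    simp only [hs, Finset.coe_image, Finset.coe_filter, Finset.mem_univ, true_and,
      Set.mem_image, Set.mem_ofPred_eq] at hg
    obtain ⟨i, hi, rfl⟩ := hg
    exact hi
  refine Measure.ext fun E hE => le_antisymm ?_ (hle E)
  have h1 := prob_compl_eq_one_sub (μ := μ.toMeasure) (meas_set Eᶜ)
  have h2 := prob_compl_eq_one_sub (μ := m') (meas_set Eᶜ)
  rw [compl_compl] at h1 h2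
  rw [h1, h2]
  exact tsub_le_tsub_left (hle Eᶜ) 1

lemma stepLaw_eq {w : ι → ℝ} {A : ι → SL(2, ℝ)} (hw : IsWt w) {μ : PMF PSL(2, ℝ)}
    (hμ : ∀ i, μ (QuotientGroup.mk (A i)) = ENNReal.ofReal (w i))
    (hinj : Function.Injective fun i => (QuotientGroup.mk (A i) : PSL(2, ℝ))) :
    stepLaw μ = ∑ i, ENNReal.ofReal (w i) • (stepLaw μ).map (cons (QuotientGroup.mk (A i))) := by
  classical
  symm
  refine Measure.eq_infinitePi _ ?_
  intro s t _
  obtain ⟨N, hN⟩ : ∃ N, s ⊆ Finset.range (N + 1) := by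
    refine ⟨s.sup id, fun i hi => ?_⟩
    have : i ≤ s.sup id := Finset.le_sup (f := id) hi
    simp; omega
  set t' : ℕ → Set PSL(2, ℝ) := fun i => if i ∈ s then t i else Set.univ with ht'
  have e1 : Set.pi (s : Set ℕ) t = Set.pi (Finset.range (N + 1) : Set ℕ) t' := by
    ext x
    simp only [Set.mem_pi, Finset.mem_coe, ht']
    constructor
    · intro h i _
      by_cases hi : i ∈ s
      · rw [if_pos hi]; exact h i hi
      · rw [if_neg hi]; trivial
    · intro h i hi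
      have := h i (hN hi)
      rwa [if_pos hi] at this
  have e2 : ∏ i ∈ s, μ.toMeasure (t i) = ∏ i ∈ Finset.range (N + 1), μ.toMeasure (t' i) := by
    rw [← Finset.prod_subset hN (f := fun i => μ.toMeasure (t' i))]
    · refine Finset.prod_congr rfl fun i hi => ?_
      simp only [ht', if_pos hi]
    · intro i _ hi
      simp only [ht', if_neg hi, measure_univ]
  rw [e1, e2, Finset.prod_range_succ', mul_comm]
  rw [Measure.finsetSum_apply]
  have hpi : MeasurableSet (Set.pi (Finset.range (N + 1) : Set ℕ) t') :=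
    MeasurableSet.pi (Finset.countable_toSet _) fun i _ => meas_set _
  have e3 : ∀ i : ι, (ENNReal.ofReal (w i) • (stepLaw μ).map (cons (QuotientGroup.mk (A i))))
      (Set.pi (Finset.range (N + 1) : Set ℕ) t') =
      ENNReal.ofReal (w i) * (t' 0).indicator 1 (QuotientGroup.mk (A i) : PSL(2, ℝ)) *
        ∏ k ∈ Finset.range N, μ.toMeasure (t' (k + 1)) := by
    intro i
    rw [Measure.smul_apply, Measure.map_apply (measurable_cons _) hpi, smul_eq_mul, mul_assoc]
    congr 1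
    by_cases hi : (QuotientGroup.mk (A i) : PSL(2, ℝ)) ∈ t' 0
    · have e4 : cons (QuotientGroup.mk (A i)) ⁻¹' (Set.pi (Finset.range (N + 1) : Set ℕ) t') =
          Set.pi (Finset.range N : Set ℕ) (fun k => t' (k + 1)) := by
        ext y
        simp only [Set.mem_preimage, Set.mem_pi, Finset.mem_coe, Finset.mem_range]
        constructor
        · intro h k hk
          exact h (k + 1) (by omega)
        · intro h k hk
          cases k with
          | zero => exact hi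
          | succ k => exact h k (by omega)
      rw [e4, Set.indicator_of_mem hi, Pi.one_apply, one_mul]
      exact Measure.infinitePi_pi _ fun k _ => meas_set _
    · have e4 : cons (QuotientGroup.mk (A i)) ⁻¹' (Set.pi (Finset.range (N + 1) : Set ℕ) t') =
          ∅ := by
        ext y
        simp only [Set.mem_preimage, Set.mem_pi, Finset.mem_coe, Finset.mem_range,
          Set.mem_empty_iff_false, iff_false]
        intro h
        exact hi (h 0 (by omega))
      rw [e4, Set.indicator_of_notMem hi, measure_empty, zero_mul]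
  rw [Finset.sum_congr rfl fun i _ => e3 i, ← Finset.sum_mul]
  congr 1
  rw [toMeasure_eq hw hμ hinj, Measure.finsetSum_apply]
  refine Finset.sum_congr rfl fun i _ => ?_
  rw [Measure.smul_apply, Measure.dirac_apply' _ (meas_set _), smul_eq_mul]

/-! ### index words -/

/-- index of a step -/
def ix [Nonempty ι] (A : ι → SL(2, ℝ)) (g : PSL(2, ℝ)) : ι := open Classical in
  if h : ∃ i, (QuotientGroup.mk (A i) : PSL(2, ℝ)) = g then h.choose else Classical.arbitrary ι

lemma mk_ix [Nonempty ι] {A : ι → SL(2, ℝ)} {g : PSL(2, ℝ)}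
    (h : ∃ i, (QuotientGroup.mk (A i) : PSL(2, ℝ)) = g) :
    (QuotientGroup.mk (A (ix A g)) : PSL(2, ℝ)) = g := by
  unfold ix
  rw [dif_pos h]
  exact h.choose_spec

lemma ix_mk [Nonempty ι] {A : ι → SL(2, ℝ)}
    (hinj : Function.Injective fun i => (QuotientGroup.mk (A i) : PSL(2, ℝ))) (i : ι) :
    ix A (QuotientGroup.mk (A i)) = i :=
  hinj (mk_ix ⟨i, rfl⟩)

/-- the word of the first `k` steps -/
def iw [Nonempty ι] (A : ι → SL(2, ℝ)) (k : ℕ) (x : ℕ → PSL(2, ℝ)) : Fin k → ι :=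
  fun j => ix A (x j)

lemma meas_iw [Nonempty ι] (A : ι → SL(2, ℝ)) (k : ℕ) {β : Type*} [MeasurableSpace β]
    (F : (Fin k → ι) → β) : Measurable (fun x => F (iw A k x)) := by
  let _ : MeasurableSpace ι := ⊤
  have h1 : Measurable (iw A k) := by
    rw [measurable_pi_iff]
    intro j
    exact (measurable_from_top (f := ix A)).comp (measurable_pi_apply (j : ℕ))
  exact (measurable_of_finite F).comp h1

lemma lint_iw [Nonempty ι] {w : ι → ℝ} {A : ι → SL(2, ℝ)} (hw : IsWt w) {μ : PMF PSL(2, ℝ)}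
    (hμ : ∀ i, μ (QuotientGroup.mk (A i)) = ENNReal.ofReal (w i))
    (hinj : Function.Injective fun i => (QuotientGroup.mk (A i) : PSL(2, ℝ))) (k : ℕ)
    (F : (Fin k → ι) → ℝ≥0∞) :
    ∫⁻ x, F (iw A k x) ∂(stepLaw μ) = ∑ u, ENNReal.ofReal (wt w u) * F u := by
  have : IsProbabilityMeasure (stepLaw μ) := by unfold stepLaw; infer_instance
  induction k with
  | zero =>
    have h1 : ∀ x, F (iw A 0 x) = F default := fun x => by congr 1; exact Subsingleton.elim _ _
    simp only [h1, lintegral_const, measure_univ, mul_one]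
    rw [Fintype.sum_unique]
    simp
  | succ k ih =>
    conv_lhs => rw [stepLaw_eq hw hμ hinj]
    rw [lintegral_finsetSum_measure]
    have h1 : ∀ i, ∫⁻ x, F (iw A (k + 1) x)
        ∂(ENNReal.ofReal (w i) • (stepLaw μ).map (cons (QuotientGroup.mk (A i)))) =
        ENNReal.ofReal (w i) * ∑ u, ENNReal.ofReal (wt w u) * F (Fin.cons i u) := by
      intro i
      rw [lintegral_smul_measure, lintegral_map (meas_iw A (k + 1) F) (measurable_cons _),
        smul_eq_mul]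
      congr 1
      rw [← ih (fun u => F (Fin.cons i u))]
      refine lintegral_congr fun y => ?_
      congr 1
      funext j
      refine Fin.cases ?_ (fun j => ?_) j
      · exact ix_mk hinj i
      · rfl
    rw [Finset.sum_congr rfl fun i _ => h1 i,
      ← (Fin.consEquiv (fun _ : Fin (k + 1) => ι)).sum_comp, Fintype.sum_prod_type]
    refine Finset.sum_congr rfl fun i _ => ?_
    rw [Finset.mul_sum]
    refine Finset.sum_congr rfl fun u _ => ?_
    rw [wt_succ, ENNReal.ofReal_mul (by simpa using hw.nonneg _)]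
    simp [Fin.consEquiv, mul_assoc]

/-! ### moments -/

lemma avg_bound {w : ι → ℝ} {A : ι → SL(2, ℝ)} (hw : IsWt w) {K : ℕ} {s q : ℝ} (hK : 1 ≤ K)
    (hs : 0 < s) (hq : q < 1)
    (hneg : ∀ z : ℂ, z ≠ 0 → (avg w A)^[K] (fun z => ‖z‖ ^ (-s)) z ≤ q * ‖z‖ ^ (-s)) :
    ∃ C r : ℝ, 0 ≤ C ∧ 0 < r ∧ r < 1 ∧
      ∀ k : ℕ, (avg w A)^[k] (fun z => ‖z‖ ^ (-s)) 1 ≤ C * r ^ k := by
  set f : ℂ → ℝ := fun z => ‖z‖ ^ (-s) with hf
  set p : ℝ := max q (1 / 2) with hp
  have hp0 : 0 < p := lt_of_lt_of_le (by norm_num) (le_max_right _ _)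
  have hp1 : p < 1 := max_lt hq (by norm_num)
  have hqp : q ≤ p := le_max_left _ _
  have hf0 : ∀ z, 0 ≤ f z := fun z => Real.rpow_nonneg (norm_nonneg z) _
  have h1 : ∀ z : ℂ, z ≠ 0 → (avg w A)^[K] f z ≤ p * f z := fun z hz =>
    (hneg z hz).trans (mul_le_mul_of_nonneg_right hqp (hf0 z))
  have h2 : ∀ (j : ℕ) (z : ℂ), z ≠ 0 → (avg w A)^[K * j] f z ≤ p ^ j * f z := by
    intro j
    induction j with
    | zero => intro z _; simp
    | succ j ih =>
      intro z hz
      rw [Nat.mul_succ, Function.iterate_add_apply]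
      refine (avg_iter_mono hw.nonneg A h1 (K * j) z hz).trans ?_
      rw [avg_iter_smul]
      calc p * (avg w A)^[K * j] f z ≤ p * (p ^ j * f z) :=
            mul_le_mul_of_nonneg_left (ih z hz) hp0.le
        _ = p ^ (j + 1) * f z := by ring
  set D : ℝ := ∑ i, w i * nrm (A i) ^ s with hD
  have hD1 : 1 ≤ D := by
    rw [hD, ← hw.sum]
    refine Finset.sum_le_sum fun i _ => ?_
    have : 1 ≤ nrm (A i) ^ s := Real.one_le_rpow (one_le_nrm _) hs.le
    nlinarith [hw.nonneg i]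
  have h3 : ∀ z : ℂ, z ≠ 0 → avg w A f z ≤ D * f z := by
    intro z hz
    rw [hD, Finset.sum_mul]
    refine Finset.sum_le_sum fun i _ => ?_
    rw [mul_assoc]
    refine mul_le_mul_of_nonneg_left ?_ (hw.nonneg i)
    simp only [hf]
    have hz0 : 0 < ‖z‖ := norm_pos_iff.2 hz
    have hAz : 0 < ‖lin (A i) z‖ := norm_pos_iff.2 (lin_ne_zero hz)
    have h4 : ‖z‖ / nrm (A i) ≤ ‖lin (A i) z‖ := by
      rw [div_le_iff₀ (nrm_pos _), mul_comm]
      exact norm_le_lin (A i) z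
    have h5 : ‖lin (A i) z‖ ^ (-s) ≤ (‖z‖ / nrm (A i)) ^ (-s) :=
      Real.rpow_le_rpow_of_nonpos (div_pos hz0 (nrm_pos _)) h4 (by linarith)
    refine h5.trans (le_of_eq ?_)
    rw [Real.div_rpow hz0.le (nrm_nonneg _), Real.rpow_neg (nrm_nonneg _), div_inv_eq_mul, mul_comm]
  have h4 : ∀ (t : ℕ) (z : ℂ), z ≠ 0 → (avg w A)^[t] f z ≤ D ^ t * f z := by
    intro t
    induction t with
    | zero => intro z _; simp
    | succ t ih =>
      intro z hz
      rw [Function.iterate_succ_apply]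
      refine (avg_iter_mono hw.nonneg A h3 t z hz).trans ?_
      rw [avg_iter_smul]
      calc D * (avg w A)^[t] f z ≤ D * (D ^ t * f z) :=
            mul_le_mul_of_nonneg_left (ih z hz) (by linarith)
        _ = D ^ (t + 1) * f z := by ring
  set r : ℝ := p ^ ((K : ℝ)⁻¹) with hr
  have hK0 : (0 : ℝ) < (K : ℝ)⁻¹ := by
    have : (0 : ℝ) < K := by exact_mod_cast hK
    positivity
  have hr0 : 0 < r := Real.rpow_pos_of_pos hp0 _
  have hr1 : r < 1 := Real.rpow_lt_one hp0.le hp1 hK0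
  have hrK : r ^ K = p := Real.rpow_inv_natCast_pow hp0.le (by omega)
  refine ⟨D ^ K / p, r, by positivity, hr0, hr1, fun k => ?_⟩
  have hone : f 1 = 1 := by simp [hf]
  have hk : k = K * (k / K) + k % K := (Nat.div_add_mod k K).symm
  have htK : k % K < K := Nat.mod_lt _ (by omega)
  have h5 : (avg w A)^[k] f 1 ≤ D ^ (k % K) * p ^ (k / K) := by
    conv_lhs => rw [hk]
    rw [Function.iterate_add_apply]
    refine (avg_iter_mono hw.nonneg A (h4 (k % K)) (K * (k / K)) 1 one_ne_zero).trans ?_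
    rw [avg_iter_smul]
    refine mul_le_mul_of_nonneg_left ?_ (by positivity)
    have := h2 (k / K) 1 one_ne_zero
    rwa [hone, mul_one] at this
  refine h5.trans ?_
  have h6 : D ^ (k % K) ≤ D ^ K := pow_le_pow_right₀ hD1 htK.le
  have h7 : p ^ (k / K) ≤ r ^ k / p := by
    rw [le_div_iff₀ hp0, ← hrK, ← pow_mul, ← pow_add]
    refine pow_le_pow_of_le_one hr0.le hr1.le ?_
    have := Nat.div_add_mod k K
    omega
  calc D ^ (k % K) * p ^ (k / K) ≤ D ^ K * (r ^ k / p) := by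
        refine mul_le_mul h6 h7 (by positivity) (by positivity)
    _ = D ^ K / p * r ^ k := by ring

lemma ae_growth [Nonempty ι] {w : ι → ℝ} {A : ι → SL(2, ℝ)} (hw : IsWt w) {μ : PMF PSL(2, ℝ)}
    (hμ : ∀ i, μ (QuotientGroup.mk (A i)) = ENNReal.ofReal (w i))
    (hinj : Function.Injective fun i => (QuotientGroup.mk (A i) : PSL(2, ℝ)))
    {K : ℕ} {s q : ℝ} (hK : 1 ≤ K) (hs : 0 < s) (hq : q < 1)
    (hneg : ∀ z : ℂ, z ≠ 0 → (avg w A)^[K] (fun z => ‖z‖ ^ (-s)) z ≤ q * ‖z‖ ^ (-s)) :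
    ∃ σ : ℝ, 0 < σ ∧ σ < 1 ∧ ∀ᵐ x ∂(stepLaw μ), ∃ B : ℝ, 0 ≤ B ∧
      ∀ k, 1 / ‖lin (word A (iw A k x)) 1‖ ≤ B * σ ^ k := by
  obtain ⟨C, r, hC, hr0, hr1, hb⟩ := avg_bound hw hK hs hq hneg
  obtain ⟨ρ, hρ0, hρ1, hrρ⟩ : ∃ ρ : ℝ, 0 < ρ ∧ ρ < 1 ∧ r < ρ :=
    ⟨(1 + r) / 2, by linarith, by linarith, by linarith⟩
  have hmeas : ∀ k : ℕ, Measurable (fun x : ℕ → PSL(2, ℝ) => ENNReal.ofReal ((ρ ^ k)⁻¹ *
      ‖lin (word A (iw A k x)) 1‖ ^ (-s))) := fun k =>
    meas_iw A k (fun u => ENNReal.ofReal ((ρ ^ k)⁻¹ * ‖lin (word A u) 1‖ ^ (-s)))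
  have hint : ∀ k : ℕ, ∫⁻ x, ENNReal.ofReal ((ρ ^ k)⁻¹ *
      ‖lin (word A (iw A k x)) 1‖ ^ (-s)) ∂(stepLaw μ) ≤ ENNReal.ofReal (C * (r / ρ) ^ k) := by
    intro k
    rw [lint_iw hw hμ hinj k (fun u => ENNReal.ofReal ((ρ ^ k)⁻¹ * ‖lin (word A u) 1‖ ^ (-s)))]
    have h1 : ∀ u : Fin k → ι, ENNReal.ofReal (wt w u) *
        ENNReal.ofReal ((ρ ^ k)⁻¹ * ‖lin (word A u) 1‖ ^ (-s)) =
        ENNReal.ofReal ((ρ ^ k)⁻¹ * (wt w u * ‖lin (word A u) 1‖ ^ (-s))) := by
      intro u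
      rw [← ENNReal.ofReal_mul (wt_nonneg hw.nonneg u)]
      congr 1; ring
    rw [Finset.sum_congr rfl fun u _ => h1 u, ← ENNReal.ofReal_sum_of_nonneg]
    · refine ENNReal.ofReal_le_ofReal ?_
      rw [← Finset.mul_sum]
      have h2 : ∑ u : Fin k → ι, wt w u * ‖lin (word A u) 1‖ ^ (-s) =
          (avg w A)^[k] (fun z => ‖z‖ ^ (-s)) 1 := Ex_iter w A (fun z => ‖z‖ ^ (-s)) k 1
      rw [h2, div_pow]
      calc (ρ ^ k)⁻¹ * (avg w A)^[k] (fun z => ‖z‖ ^ (-s)) 1 ≤ (ρ ^ k)⁻¹ * (C * r ^ k) :=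
            mul_le_mul_of_nonneg_left (hb k) (by positivity)
        _ = C * (r ^ k / ρ ^ k) := by field_simp
    · intro u _
      have := wt_nonneg hw.nonneg u
      positivity
  have hsum : ∫⁻ x, ∑' k : ℕ, ENNReal.ofReal ((ρ ^ k)⁻¹ *
      ‖lin (word A (iw A k x)) 1‖ ^ (-s)) ∂(stepLaw μ) ≠ ∞ := by
    rw [lintegral_tsum fun k => (hmeas k).aemeasurable]
    have hrr : r / ρ < 1 := (div_lt_one hρ0).2 hrρ
    have hS : Summable fun k : ℕ => C * (r / ρ) ^ k :=
      (summable_geometric_of_lt_one (by positivity) hrr).mul_left C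
    refine ne_top_of_le_ne_top ?_ (ENNReal.tsum_le_tsum hint)
    rw [← ENNReal.ofReal_tsum_of_nonneg (fun k => by positivity) hS]
    exact ENNReal.ofReal_ne_top
  have hae := ae_lt_top (Measurable.tsum hmeas) hsum
  refine ⟨ρ ^ (s⁻¹), Real.rpow_pos_of_pos hρ0 _, Real.rpow_lt_one hρ0.le hρ1 (by positivity), ?_⟩
  filter_upwards [hae] with x hx
  set S := ∑' k : ℕ, ENNReal.ofReal ((ρ ^ k)⁻¹ * ‖lin (word A (iw A k x)) 1‖ ^ (-s)) with hSdef
  refine ⟨S.toReal ^ (s⁻¹), by positivity, fun k => ?_⟩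
  have h1 : (ρ ^ k)⁻¹ * ‖lin (word A (iw A k x)) 1‖ ^ (-s) ≤ S.toReal := by
    have h2 : ENNReal.ofReal ((ρ ^ k)⁻¹ * ‖lin (word A (iw A k x)) 1‖ ^ (-s)) ≤ S :=
      ENNReal.le_tsum k
    have h3 := ENNReal.toReal_mono hx.ne h2
    rwa [ENNReal.toReal_ofReal (by positivity)] at h3
  have hn : 0 < ‖lin (word A (iw A k x)) 1‖ := norm_pos_iff.2 (lin_ne_zero one_ne_zero)
  have h4 : ‖lin (word A (iw A k x)) 1‖ ^ (-s) ≤ S.toReal * ρ ^ k := by
    rw [inv_mul_le_iff₀ (by positivity)] at h1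
    linarith
  have h5 : 1 / ‖lin (word A (iw A k x)) 1‖ =
      (‖lin (word A (iw A k x)) 1‖ ^ (-s)) ^ (s⁻¹) := by
    rw [← Real.rpow_mul hn.le, neg_mul, mul_inv_cancel₀ hs.ne', Real.rpow_neg_one, one_div]
  rw [h5]
  calc (‖lin (word A (iw A k x)) 1‖ ^ (-s)) ^ (s⁻¹) ≤ (S.toReal * ρ ^ k) ^ (s⁻¹) :=
        Real.rpow_le_rpow (by positivity) h4 (by positivity)
    _ = S.toReal ^ (s⁻¹) * (ρ ^ (s⁻¹)) ^ k := by
        rw [Real.mul_rpow ENNReal.toReal_nonneg (by positivity), ← Real.rpow_natCast,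
          ← Real.rpow_mul hρ0.le, ← Real.rpow_natCast, ← Real.rpow_mul hρ0.le, mul_comm (k : ℝ)]

/-! ### geometry of the boundary -/

/-- the unit vector `1` -/
def e1 : S1 := ⟨1, by simp⟩

lemma coe_e1 : (e1 : ℂ) = 1 := rfl

lemma bpt_e1 : (bpt e1 : ℂ) = 1 := by simp [bpt, coe_e1]

lemma norm_bpt_sub (u v : S1) : ‖(bpt u : ℂ) - bpt v‖ = 2 * |wedge (u : ℂ) v| := by
  have hu : (u : ℂ).re ^ 2 + (u : ℂ).im ^ 2 = 1 := by
    have h2 : ‖(u : ℂ)‖ ^ 2 = 1 := by rw [S1_norm]; norm_num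
    rw [Complex.sq_norm, Complex.normSq_apply] at h2
    nlinarith
  have hv : (v : ℂ).re ^ 2 + (v : ℂ).im ^ 2 = 1 := by
    have h2 : ‖(v : ℂ)‖ ^ 2 = 1 := by rw [S1_norm]; norm_num
    rw [Complex.sq_norm, Complex.normSq_apply] at h2
    nlinarith
  have h1 : ‖(bpt u : ℂ) - bpt v‖ ^ 2 = (2 * |wedge (u : ℂ) v|) ^ 2 := by
    rw [Complex.sq_norm, Complex.normSq_apply, mul_pow, sq_abs]
    simp only [bpt, wedge, Complex.sub_re, Complex.sub_im, pow_two, Complex.mul_re, Complex.mul_im,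
      Complex.conj_re, Complex.conj_im]
    set a := (u : ℂ).re
    set b := (u : ℂ).im
    set c := (v : ℂ).re
    set d := (v : ℂ).im
    have ha : a ^ 2 = 1 - b ^ 2 := by linarith
    have hc : c ^ 2 = 1 - d ^ 2 := by linarith
    have hx : a * a - -b * -b - (c * c - -d * -d) = 2 * (d ^ 2 - b ^ 2) := by nlinarith
    rw [hx]
    nlinarith [mul_self_nonneg (a * d - b * c)]
  exact (pow_left_inj₀ (norm_nonneg _) (by positivity) two_ne_zero).1 h1

lemma dist_bpt_le (g a : SL(2, ℝ)) :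
    dist (bpt (circ g e1)) (bpt (circ (g * a) e1)) ≤
      2 * nrm a * (1 / ‖lin g 1‖) * (1 / ‖lin (g * a) 1‖) := by
  rw [Subtype.dist_eq, dist_eq_norm, norm_bpt_sub]
  have h1 : wedge (circ g e1 : ℂ) (circ (g * a) e1) =
      wedge 1 (lin a 1) * (1 / ‖lin g 1‖) * (1 / ‖lin (g * a) 1‖) := by
    rw [coe_circ, coe_circ, coe_e1]
    have h2 : ∀ (z v : ℂ) (s t : ℝ), wedge (z / (s : ℂ)) (v / (t : ℂ)) =
        wedge z v * (1 / s) * (1 / t) := by
      intro z v s t
      simp only [wedge, Complex.div_ofReal_re, Complex.div_ofReal_im]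
      ring
    rw [h2, lin_mul, wedge_lin]
  rw [h1, abs_mul, abs_mul]
  have h3 : |wedge 1 (lin a 1)| ≤ nrm a := by
    refine (abs_wedge_le _ _).trans ?_
    have := norm_lin_le a 1
    simpa using this
  rw [abs_of_nonneg (by positivity : (0 : ℝ) ≤ 1 / ‖lin g 1‖),
    abs_of_nonneg (by positivity : (0 : ℝ) ≤ 1 / ‖lin (g * a) 1‖)]
  have h4 : (0 : ℝ) ≤ 1 / ‖lin g 1‖ := by positivity
  have h5 : (0 : ℝ) ≤ 1 / ‖lin (g * a) 1‖ := by positivity
  calc 2 * (|wedge 1 (lin a 1)| * (1 / ‖lin g 1‖) * (1 / ‖lin (g * a) 1‖))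
      = |wedge 1 (lin a 1)| * (2 * (1 / ‖lin g 1‖) * (1 / ‖lin (g * a) 1‖)) := by ring
    _ ≤ nrm a * (2 * (1 / ‖lin g 1‖) * (1 / ‖lin (g * a) 1‖)) :=
        mul_le_mul_of_nonneg_right h3 (by positivity)
    _ = _ := by ring

lemma alpha_eq (g : SL(2, ℝ)) :
    alpha g = ((g 0 0 : ℂ) + g 1 1) / 2 + ((g 0 1 : ℂ) - g 1 0) / 2 * Complex.I := by
  apply Complex.ext <;> simp [alpha]

lemma beta_eq (g : SL(2, ℝ)) :
    beta g = ((g 0 0 : ℂ) - g 1 1) / 2 - ((g 0 1 : ℂ) + g 1 0) / 2 * Complex.I := by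
  apply Complex.ext <;> simp [beta]

lemma conj_alpha_eq (g : SL(2, ℝ)) :
    (starRingEnd ℂ) (alpha g) =
      ((g 0 0 : ℂ) + g 1 1) / 2 - ((g 0 1 : ℂ) - g 1 0) / 2 * Complex.I := by
  apply Complex.ext <;> simp [alpha]

lemma conj_beta_eq (g : SL(2, ℝ)) :
    (starRingEnd ℂ) (beta g) =
      ((g 0 0 : ℂ) - g 1 1) / 2 + ((g 0 1 : ℂ) + g 1 0) / 2 * Complex.I := by
  apply Complex.ext <;> simp [beta]

lemma alpha_beta (g : SL(2, ℝ)) : ‖alpha g‖ ^ 2 = 1 + ‖beta g‖ ^ 2 := by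
  rw [Complex.sq_norm, Complex.sq_norm, Complex.normSq_apply, Complex.normSq_apply]
  simp only [alpha, beta]
  linear_combination det_eq g

lemma add_I_ne_zero (z : ℍ) : (z : ℂ) + Complex.I ≠ 0 := by
  intro h
  have h1 := congrArg Complex.im h
  simp at h1
  have := z.im_pos
  linarith

lemma norm_cayley_lt (z : ℍ) : ‖cayley z‖ < 1 := by
  unfold cayley
  rw [norm_div, div_lt_one (norm_pos_iff.2 (add_I_ne_zero z))]
  refine lt_of_pow_lt_pow_left₀ 2 (norm_nonneg _) ?_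
  rw [Complex.sq_norm, Complex.sq_norm, Complex.normSq_apply, Complex.normSq_apply]
  simp
  have := z.im_pos
  nlinarith

lemma bden_norm_ge (g : SL(2, ℝ)) {c : ℂ} (hc : ‖c‖ ≤ 1) : 1 - ‖c‖ ≤ ‖bden g c‖ := by
  have hab := alpha_beta g
  have h1 : 1 ≤ ‖alpha g‖ := by nlinarith [norm_nonneg (alpha g), norm_nonneg (beta g)]
  have h2 : ‖beta g‖ ≤ ‖alpha g‖ := by
    nlinarith [norm_nonneg (alpha g), norm_nonneg (beta g)]
  have h3 : ‖alpha g‖ - ‖beta g‖ * ‖c‖ ≤ ‖bden g c‖ := by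
    unfold bden
    have h4 := norm_sub_norm_le ((starRingEnd ℂ) (alpha g)) (-((starRingEnd ℂ) (beta g) * c))
    rw [norm_neg, norm_mul, RCLike.norm_conj, RCLike.norm_conj] at h4
    refine h4.trans (le_of_eq ?_)
    congr 1; ring
  nlinarith [norm_nonneg c, norm_nonneg (beta g)]

lemma bden_ne_zero' (g : SL(2, ℝ)) {c : ℂ} (hc : ‖c‖ < 1) : bden g c ≠ 0 := by
  have := bden_norm_ge g hc.le
  intro h
  rw [h, norm_zero] at this
  linarith

lemma cayley_smul (g : SL(2, ℝ)) (z : ℍ) :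
    cayley (g • z) = (alpha g * cayley z + beta g) / bden g (cayley z) := by
  have hz := add_I_ne_zero z
  have hd : (g 1 0 : ℂ) * z + g 1 1 ≠ 0 := by
    intro h
    have h1 := congrArg Complex.im h
    have h2 := congrArg Complex.re h
    simp at h1 h2
    rcases h1 with h1 | h1
    · rw [h1] at h2
      have := det_eq g
      simp at h2
      rw [h1, h2] at this
      simp at this
    · exact z.im_pos.ne' h1
  have hgz := add_I_ne_zero (g • z)
  have hb := bden_ne_zero' g (norm_cayley_lt z)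
  have h1 : alpha g * cayley z + beta g =
      (((g 0 0 : ℂ) * z + g 0 1) - Complex.I * ((g 1 0 : ℂ) * z + g 1 1)) / (z + Complex.I) := by
    rw [eq_div_iff hz]
    have h2 : (alpha g * cayley z + beta g) * (z + Complex.I) =
        alpha g * (z - Complex.I) + beta g * (z + Complex.I) := by
      unfold cayley
      field_simp
    rw [h2, alpha_eq, beta_eq]
    linear_combination (-(g 0 1 : ℂ)) * Complex.I_sq
  have h3 : bden g (cayley z) =
      (((g 0 0 : ℂ) * z + g 0 1) + Complex.I * ((g 1 0 : ℂ) * z + g 1 1)) / (z + Complex.I) := by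
    rw [eq_div_iff hz]
    have h2 : bden g (cayley z) * (z + Complex.I) =
        (starRingEnd ℂ) (beta g) * (z - Complex.I) +
          (starRingEnd ℂ) (alpha g) * (z + Complex.I) := by
      unfold cayley bden
      field_simp
    rw [h2, conj_alpha_eq, conj_beta_eq]
    linear_combination (-(g 0 1 : ℂ)) * Complex.I_sq
  have h4 : ((g 0 0 : ℂ) * z + g 0 1) + Complex.I * ((g 1 0 : ℂ) * z + g 1 1) ≠ 0 := by
    intro h
    rw [h3, h, zero_div] at hb
    exact hb rfl
  have h5 : ((g • z : ℍ) : ℂ) = ((g 0 0 : ℂ) * z + g 0 1) / ((g 1 0 : ℂ) * z + g 1 1) := by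
    rw [coe_specialLinearGroup_apply]
    simp
  rw [h1, h3, div_div_div_cancel_right₀ hz]
  unfold cayley
  rw [h5] at hgz ⊢
  rw [div_eq_div_iff hgz h4]
  generalize (g 0 0 : ℂ) * z + g 0 1 = N
  generalize (g 1 0 : ℂ) * z + g 1 1 = D at hd ⊢
  field_simp

lemma cayley_near (g : SL(2, ℝ)) (o : ℍ) :
    ‖cayley (g • o) - bpt (circ g e1)‖ ≤ 2 / (1 - ‖cayley o‖) * (1 / ‖lin g 1‖) := by
  have hc := norm_cayley_lt o
  have hb := bden_ne_zero' g hc
  have hb1 : bden g (bpt e1) ≠ 0 := bden_ne_zero g _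
  have hn1 : ‖bden g (bpt e1)‖ = ‖lin g 1‖ := norm_bden_bpt g e1
  have h1 : (bpt (circ g e1) : ℂ) = (alpha g * 1 + beta g) / bden g 1 := by
    rw [← bmap_bpt]
    show (alpha g * (bpt e1 : ℂ) + beta g) / bden g (bpt e1) = _
    rw [bpt_e1]
  rw [bpt_e1] at hb1 hn1
  have h2 : cayley (g • o) - bpt (circ g e1) =
      (cayley o - 1) / (bden g (cayley o) * bden g 1) := by
    rw [cayley_smul, h1, div_sub_div _ _ hb hb1]
    congr 1
    have hab : alpha g * (starRingEnd ℂ) (alpha g) - beta g * (starRingEnd ℂ) (beta g) = 1 := by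
      rw [Complex.mul_conj, Complex.mul_conj, Complex.normSq_eq_norm_sq, Complex.normSq_eq_norm_sq,
        alpha_beta]
      push_cast; ring
    unfold bden
    linear_combination (cayley o - 1) * hab
  rw [h2, norm_div, norm_mul, hn1]
  have h3 : ‖cayley o - 1‖ ≤ 2 := by
    refine (norm_sub_le _ _).trans ?_
    rw [norm_one]; linarith
  have h4 := bden_norm_ge g hc.le
  have h5 : 0 < ‖lin g 1‖ := norm_pos_iff.2 (lin_ne_zero one_ne_zero)
  have h6 : 0 < 1 - ‖cayley o‖ := by linarith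
  calc ‖cayley o - 1‖ / (‖bden g (cayley o)‖ * ‖lin g 1‖)
      ≤ 2 / ((1 - ‖cayley o‖) * ‖lin g 1‖) := by
        refine div_le_div₀ (by norm_num) h3 (by positivity) ?_
        exact mul_le_mul_of_nonneg_right h4 h5.le
    _ = 2 / (1 - ‖cayley o‖) * (1 / ‖lin g 1‖) := by rw [div_mul_div_comm, mul_one]

/-! ### the walk -/

omit [Fintype ι] in
lemma word_snoc (A : ι → SL(2, ℝ)) {n : ℕ} (u : Fin (n + 1) → ι) :
    word A u = word A (fun k => u k.castSucc) * A (u (Fin.last n)) := by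
  unfold word
  rw [List.ofFn_succ', List.concat_eq_append, List.prod_append]
  simp

lemma word_iw_succ [Nonempty ι] (A : ι → SL(2, ℝ)) (k : ℕ) (x : ℕ → PSL(2, ℝ)) :
    word A (iw A (k + 1) x) = word A (iw A k x) * A (ix A (x k)) := by
  rw [word_snoc]
  rfl

lemma walk_eq [Nonempty ι] (A : ι → SL(2, ℝ)) (k : ℕ) (x : ℕ → PSL(2, ℝ))
    (hx : ∀ j, ∃ i, (QuotientGroup.mk (A i) : PSL(2, ℝ)) = x j) :
    walk x k = QuotientGroup.mk (word A (iw A k x)) := by
  induction k with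
  | zero => simp [walk, word]
  | succ k ih =>
    have h1 : walk x (k + 1) = walk x k * x k := by
      unfold walk
      rw [List.ofFn_succ', List.concat_eq_append, List.prod_append]
      simp
    rw [h1, ih, word_iw_succ, QuotientGroup.mk_mul, mk_ix (hx k)]

lemma walk_cons (g : PSL(2, ℝ)) (y : ℕ → PSL(2, ℝ)) (k : ℕ) :
    walk (cons g y) (k + 1) = g * walk y k := by
  unfold walk
  rw [List.ofFn_succ, List.prod_cons]
  rfl

lemma actH_mul_mk (A : SL(2, ℝ)) (h : PSL(2, ℝ)) (o : ℍ) :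
    actH (QuotientGroup.mk A * h) o = A • actH h o := by
  obtain ⟨h', rfl⟩ := QuotientGroup.mk_surjective h
  rw [← QuotientGroup.mk_mul, actH_mk', actH_mk', mul_smul]

lemma bmap_tendsto (g : SL(2, ℝ)) {z : ℕ → ℍ} {ζ : S1}
    (h : Tendsto (fun k => cayley (z k)) atTop (𝓝 (ζ : ℂ))) :
    Tendsto (fun k => cayley (g • z k)) atTop (𝓝 (bmap g ζ : ℂ)) := by
  simp only [cayley_smul]
  have h1 : Tendsto (fun k => alpha g * cayley (z k) + beta g) atTop
      (𝓝 (alpha g * ζ + beta g)) := (h.const_mul _).add_const _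
  have h2 : Tendsto (fun k => bden g (cayley (z k))) atTop (𝓝 (bden g ζ)) := by
    unfold bden
    exact (h.const_mul _).add_const _
  exact h1.div h2 (bden_ne_zero g ζ)

lemma exists_weight_nonempty {w : ι → ℝ} (hw : IsWt w) : Nonempty ι := by
  by_contra h
  rw [not_nonempty_iff] at h
  have := hw.sum
  simp at this

/-- the walk converges to the boundary -/
lemma exists_limit [Nonempty ι] {w : ι → ℝ} {A : ι → SL(2, ℝ)} (hw : IsWt w)
    {μ : PMF PSL(2, ℝ)}
    (hμ : ∀ i, μ (QuotientGroup.mk (A i)) = ENNReal.ofReal (w i))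
    (hinj : Function.Injective fun i => (QuotientGroup.mk (A i) : PSL(2, ℝ)))
    {K : ℕ} {s q : ℝ} (hK : 1 ≤ K) (hs : 0 < s) (hq : q < 1)
    (hneg : ∀ z : ℂ, z ≠ 0 → (avg w A)^[K] (fun z => ‖z‖ ^ (-s)) z ≤ q * ‖z‖ ^ (-s)) (o : ℍ) :
    ∃ F : (ℕ → PSL(2, ℝ)) → S1, Measurable F ∧
      ∀ᵐ x ∂(stepLaw μ), Tendsto (fun k => cayley (actH (walk x k) o)) atTop (𝓝 (F x : ℂ)) := by
  have hP : IsProbabilityMeasure (stepLaw μ) := by unfold stepLaw; infer_instance
  obtain ⟨σ, hσ0, hσ1, hgr⟩ := ae_growth hw hμ hinj hK hs hq hneg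
  have hrange : ∀ᵐ x ∂(stepLaw μ), ∀ j, ∃ i, (QuotientGroup.mk (A i) : PSL(2, ℝ)) = x j := by
    rw [ae_all_iff]
    intro j
    have h1 : (stepLaw μ).map (fun x => x j) = μ.toMeasure :=
      (measurePreserving_eval_infinitePi (fun _ : ℕ => μ.toMeasure) j).map_eq
    have h2 : ∀ᵐ g ∂((stepLaw μ).map (fun x => x j)),
        ∃ i, (QuotientGroup.mk (A i) : PSL(2, ℝ)) = g := by
      rw [h1, toMeasure_eq hw hμ hinj, ae_iff, Measure.finsetSum_apply]
      refine Finset.sum_eq_zero fun i _ => ?_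
      rw [Measure.smul_apply, Measure.dirac_apply' _ (meas_set _),
        Set.indicator_of_notMem, smul_zero]
      simp
    exact ae_of_ae_map (measurable_pi_apply j).aemeasurable h2
  set ξ : ℕ → (ℕ → PSL(2, ℝ)) → S1 := fun k x => bpt (circ (word A (iw A k x)) e1) with hξ
  have hξm : ∀ k, Measurable (ξ k) := fun k => meas_iw A k (fun u => bpt (circ (word A u) e1))
  obtain ⟨M, hM⟩ : ∃ M : ℝ, ∀ i, nrm (A i) ≤ M := by
    obtain ⟨M, hM⟩ := (Set.finite_range fun i => nrm (A i)).bddAbove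
    exact ⟨M, fun i => hM ⟨i, rfl⟩⟩
  have hM0 : 0 ≤ M := (nrm_nonneg _).trans (hM (Classical.arbitrary ι))
  have hcauchy : ∀ᵐ x ∂(stepLaw μ), ∃ l : S1, Tendsto (fun k => ξ k x) atTop (𝓝 l) := by
    filter_upwards [hgr] with x hx
    obtain ⟨B, hB, hx⟩ := hx
    refine cauchySeq_tendsto_of_complete (cauchySeq_of_le_geometric σ (2 * M * B * B) hσ1 ?_)
    intro k
    simp only [hξ]
    rw [word_iw_succ]
    refine (dist_bpt_le _ _).trans ?_
    rw [← word_iw_succ]
    have h1 := hx k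
    have h2 := hx (k + 1)
    have h3 : B * σ ^ (k + 1) ≤ B := mul_le_of_le_one_right hB (pow_le_one₀ hσ0.le hσ1.le)
    have h4 : (0 : ℝ) ≤ 1 / ‖lin (word A (iw A k x)) 1‖ := by positivity
    have h5 : (0 : ℝ) ≤ 1 / ‖lin (word A (iw A (k + 1) x)) 1‖ := by positivity
    have h6 := hM (ix A (x k))
    calc 2 * nrm (A (ix A (x k))) * (1 / ‖lin (word A (iw A k x)) 1‖) *
          (1 / ‖lin (word A (iw A (k + 1) x)) 1‖) ≤ 2 * M * (B * σ ^ k) * B := by
          refine mul_le_mul ?_ (h2.trans h3) h5 (by positivity)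
          exact mul_le_mul (by linarith) h1 h4 (by positivity)
      _ = 2 * M * B * B * σ ^ k := by ring
  obtain ⟨F, hF, hlim⟩ := measurable_limit_of_tendsto_metrizable_ae
    (fun k => (hξm k).aemeasurable) hcauchy
  refine ⟨F, hF, ?_⟩
  filter_upwards [hlim, hgr, hrange] with x h1 h2 h3
  obtain ⟨B, hB, h2⟩ := h2
  have h4 : ∀ k, cayley (actH (walk x k) o) = cayley (word A (iw A k x) • o) := by
    intro k
    rw [walk_eq A k x h3, actH_mk']
  simp only [h4]
  have h5 : Tendsto (fun k => (ξ k x : ℂ)) atTop (𝓝 (F x : ℂ)) :=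
    (continuous_subtype_val.tendsto _).comp h1
  have h6 : Tendsto (fun k => cayley (word A (iw A k x) • o) - (ξ k x : ℂ)) atTop (𝓝 0) := by
    refine squeeze_zero_norm (a := fun k => 2 / (1 - ‖cayley o‖) * (B * σ ^ k)) ?_ ?_
    · intro k
      refine (cayley_near _ o).trans ?_
      have := norm_cayley_lt o
      refine mul_le_mul_of_nonneg_left (h2 k) (div_nonneg (by norm_num) (by linarith))
    · have h7 := (tendsto_pow_atTop_nhds_zero_of_lt_one hσ0.le hσ1).const_mul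
        (2 / (1 - ‖cayley o‖) * B)
      rw [mul_zero] at h7
      refine h7.congr fun k => by ring
  have h7 := h6.add h5
  rw [zero_add] at h7
  exact h7.congr fun k => by ring

lemma stationary [Nonempty ι] {w : ι → ℝ} {A : ι → SL(2, ℝ)} (hw : IsWt w)
    {μ : PMF PSL(2, ℝ)}
    (hμ : ∀ i, μ (QuotientGroup.mk (A i)) = ENNReal.ofReal (w i))
    (hinj : Function.Injective fun i => (QuotientGroup.mk (A i) : PSL(2, ℝ))) (o : ℍ)
    (ν : Measure S1) (hν : IsHittingMeasure o μ ν) : BStat w A ν := by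
  have hP : IsProbabilityMeasure (stepLaw μ) := by unfold stepLaw; infer_instance
  obtain ⟨F, hF, hlim, rfl⟩ := hν
  refine ⟨Measure.isProbabilityMeasure_map hF.aemeasurable, ?_⟩
  -- absolute continuity
  have hac : ∀ i, (stepLaw μ).map (cons (QuotientGroup.mk (A i))) ≪ stepLaw μ := by
    intro i
    refine Measure.AbsolutelyContinuous.mk fun E hE h0 => ?_
    rw [stepLaw_eq hw hμ hinj, Measure.finsetSum_apply] at h0
    have h1 := (Finset.sum_eq_zero_iff.1 h0) i (Finset.mem_univ i)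
    rw [Measure.smul_apply, smul_eq_mul, mul_eq_zero] at h1
    rcases h1 with h1 | h1
    · have := hw.pos i
      rw [ENNReal.ofReal_eq_zero] at h1
      linarith
    · exact h1
  have hstep : ∀ i, ∀ᵐ y ∂(stepLaw μ), F (cons (QuotientGroup.mk (A i)) y) = bmap (A i) (F y) := by
    intro i
    have h1 := ae_of_ae_map (measurable_cons _).aemeasurable ((hac i).ae_le hlim)
    filter_upwards [h1, hlim] with y h2 h3
    have h4 := h2.comp (tendsto_add_atTop_nat 1)
    have h5 : Tendsto (fun k => cayley (A i • actH (walk y k) o)) atTop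
        (𝓝 (F (cons (QuotientGroup.mk (A i)) y) : ℂ)) := by
      refine h4.congr fun k => ?_
      simp only [Function.comp_apply]
      rw [walk_cons, actH_mul_mk]
    exact Subtype.ext (tendsto_nhds_unique h5 (bmap_tendsto (A i) h3))
  refine Measure.ext fun E hE => ?_
  rw [Measure.finsetSum_apply, Measure.map_apply hF hE]
  conv_rhs => rw [stepLaw_eq hw hμ hinj]
  rw [Measure.finsetSum_apply]
  refine Finset.sum_congr rfl fun i _ => ?_
  rw [Measure.smul_apply, Measure.smul_apply]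
  congr 1
  rw [Measure.map_apply (measurable_bmap _) hE, Measure.map_apply hF (measurable_bmap _ hE),
    Measure.map_apply (measurable_cons _) (hF hE)]
  refine measure_congr ?_
  filter_upwards [hstep i] with y hy
  apply propext
  show bmap (A i) (F y) ∈ E ↔ F (cons (QuotientGroup.mk (A i)) y) ∈ E
  rw [hy]

end Hit

variable {ι : Type} [Fintype ι]

/-! ### FU-S1 hitting measures -/

theorem hitting (w : ι → ℝ) (A : ι → SL(2, ℝ)) (hw : IsWt w) (μ : PMF PSL(2, ℝ))
    (hμ : ∀ i, μ (QuotientGroup.mk (A i)) = ENNReal.ofReal (w i))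
    (hinj : Function.Injective fun i => (QuotientGroup.mk (A i) : PSL(2, ℝ)))
    {K : ℕ} {s q : ℝ} (hK : 1 ≤ K) (hs : 0 < s) (hq : q < 1)
    (hneg : ∀ z : ℂ, z ≠ 0 → (avg w A)^[K] (fun z => ‖z‖ ^ (-s)) z ≤ q * ‖z‖ ^ (-s)) (o : ℍ) :
    (∃ ν, IsHittingMeasure o μ ν) ∧ ∀ ν, IsHittingMeasure o μ ν → BStat w A ν := by
  have hne : Nonempty ι := Hit.exists_weight_nonempty hw
  refine ⟨?_, fun ν hν => Hit.stationary hw hμ hinj o ν hν⟩
  obtain ⟨F, hF, hlim⟩ := Hit.exists_limit hw hμ hinj hK hs hq hneg o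
  exact ⟨(stepLaw μ).map F, F, hF, hlim, rfl⟩

end

end Pool.Agent.Helper97.Fuchs
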